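import Mathlib
import Pool.Agent.H953Z.St

/- Help task 470: compactly supported `C^1` diffeomorphisms of the plane extend to the sphere. -/

set_option autoImplicit false
open scoped Manifold Topology
open Pool.Agent.H953Z

namespace Pool.Agent.H191Z.Help

abbrev E2 : Type := EuclideanSpace ℝ (Fin 2)

noncomputable def p0 : Sph := ⟨EuclideanSpace.single 0 1, by simp⟩

noncomputable def ch : OpenPartialHomeomorph Sph E2 := chartAt E2 p0

lemma ch_source : ch.source = {-p0}ᶜ := by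
  have := Fact.mk (@finrank_euclideanSpace_fin ℝ _ (2 + 1))
  exact stereographic'_source (n := 2) (-p0)

lemma ch_target : ch.target = Set.univ := by
  have := Fact.mk (@finrank_euclideanSpace_fin ℝ _ (2 + 1))
  exact stereographic'_target (n := 2) (-p0)

noncomputable def lin : E2 ≃L[ℝ] ℝ × ℝ :=
  (EuclideanSpace.equiv (Fin 2) ℝ).trans (ContinuousLinearEquiv.finTwoArrow ℝ ℝ)

noncomputable def emb (z : ℝ × ℝ) : Sph := ch.symm (lin.symm z)

noncomputable def prj (p : Sph) : ℝ × ℝ := lin (ch p)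

lemma prj_emb (z : ℝ × ℝ) : prj (emb z) = z := by
  unfold prj emb
  rw [ch.right_inv (by rw [ch_target]; trivial)]
  simp

lemma emb_prj {p : Sph} (hp : p ≠ -p0) : emb (prj p) = p := by
  unfold prj emb
  rw [lin.symm_apply_apply, ch.left_inv (by rw [ch_source]; exact hp)]

lemma emb_ne (z : ℝ × ℝ) : emb z ≠ -p0 := by
  have : emb z ∈ ch.source := ch.map_target (by rw [ch_target]; trivial)
  rw [ch_source] at this
  exact this

lemma emb_open : Topology.IsOpenEmbedding emb := by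
  have h1 : Topology.IsOpenEmbedding (ch.symm : E2 → Sph) :=
    ch.symm.isOpenEmbedding (by simpa using ch_target)
  exact h1.comp lin.symm.toHomeomorph.isOpenEmbedding

open Classical in
noncomputable def ext (F : ℝ × ℝ → ℝ × ℝ) (p : Sph) : Sph :=
  if p = -p0 then p else emb (F (prj p))

lemma ext_emb (F : ℝ × ℝ → ℝ × ℝ) (z : ℝ × ℝ) : ext F (emb z) = emb (F z) := by
  unfold ext
  rw [if_neg (emb_ne z), prj_emb]

lemma ext_pole (F : ℝ × ℝ → ℝ × ℝ) : ext F (-p0) = -p0 := by
  unfold ext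
  rw [if_pos rfl]

lemma ext_ext {F G : ℝ × ℝ → ℝ × ℝ} (h : Function.LeftInverse G F) (p : Sph) :
    ext G (ext F p) = p := by
  by_cases hp : p = -p0
  · rw [hp, ext_pole, ext_pole]
  · rw [← emb_prj hp, ext_emb, ext_emb, h]

lemma ext_smooth {F : ℝ × ℝ → ℝ × ℝ} (hF : ContDiff ℝ 1 F) (hc : CptS F) :
    ContMDiff (𝓡 2) (𝓡 2) 1 (ext F) := by
  intro p
  by_cases hp : p = -p0
  · obtain ⟨R, hR⟩ := hc
    have hK : IsCompact (emb '' Metric.closedBall 0 R) :=
      (isCompact_closedBall 0 R).image emb_open.continuous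
    have hmem : (emb '' Metric.closedBall 0 R)ᶜ ∈ 𝓝 p := by
      apply hK.isClosed.isOpen_compl.mem_nhds
      rintro ⟨z, -, hz⟩
      exact emb_ne z (hz.trans hp)
    have hev : ext F =ᶠ[𝓝 p] id := by
      filter_upwards [hmem] with q hq
      by_cases hq0 : q = -p0
      · rw [hq0, ext_pole]; rfl
      · have hz : R ≤ ‖prj q‖ := by
          by_contra hlt
          apply hq
          refine ⟨prj q, ?_, emb_prj hq0⟩
          simp only [Metric.mem_closedBall, dist_zero_right]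
          exact (not_le.mp hlt).le
        conv_lhs => rw [← emb_prj hq0, ext_emb, hR _ hz, emb_prj hq0]
        rfl
    exact contMDiffAt_id.congr_of_eventuallyEq hev
  · have hmem : ({-p0}ᶜ : Set Sph) ∈ 𝓝 p := isOpen_compl_singleton.mem_nhds hp
    have hev : ext F =ᶠ[𝓝 p] (ch.symm ∘ (fun w => lin.symm (F (lin w))) ∘ ch) := by
      filter_upwards [hmem] with q hq
      unfold ext
      rw [if_neg (show ¬ q = -p0 from hq)]
      rfl
    refine ContMDiffAt.congr_of_eventuallyEq ?_ hev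
    have h1 : ContMDiffAt (𝓡 2) (𝓡 2) 1 (ch : Sph → E2) p :=
      contMDiffAt_of_mem_maximalAtlas (IsManifold.chart_mem_maximalAtlas p0)
        (by show p ∈ ch.source; rw [ch_source]; exact hp)
    have h2 : ContMDiff (𝓡 2) (𝓡 2) 1 (fun w : E2 => lin.symm (F (lin w))) := by
      rw [contMDiff_iff_contDiff]
      exact lin.symm.contDiff.comp (hF.comp lin.contDiff)
    have h3 : ∀ w : E2, ContMDiffAt (𝓡 2) (𝓡 2) 1 (ch.symm : E2 → Sph) w := fun w =>
      contMDiffAt_symm_of_mem_maximalAtlas (IsManifold.chart_mem_maximalAtlas p0)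
        (by show w ∈ ch.target; rw [ch_target]; trivial)
    exact (h3 _).comp p ((h2 _).comp p h1)

lemma inv_smooth {F : ℝ × ℝ → ℝ × ℝ} (hF : IsD F) :
    ContDiff ℝ 1 (Equiv.ofBijective F hF.2.1).symm := by
  obtain ⟨h1, h2, h3⟩ := hF
  let D : ℝ × ℝ → (ℝ × ℝ) ≃L[ℝ] (ℝ × ℝ) := fun z =>
    (LinearEquiv.ofInjectiveEndo (fderiv ℝ F z).toLinearMap (h3 z)).toContinuousLinearEquiv
  have hD : ∀ z, (D z : (ℝ × ℝ) →L[ℝ] (ℝ × ℝ)) = fderiv ℝ F z := fun z => by
    ext <;> rfl
  have hs : ∀ z, HasStrictFDerivAt F (D z : (ℝ × ℝ) →L[ℝ] (ℝ × ℝ)) z := fun z => by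
    rw [hD]
    exact h1.contDiffAt.hasStrictFDerivAt (by norm_num)
  have ho : IsOpenMap F := isOpenMap_of_hasStrictFDerivAt_equiv hs
  let H : (ℝ × ℝ) ≃ₜ (ℝ × ℝ) :=
    (Equiv.ofBijective F h2).toHomeomorphOfContinuousOpen h1.continuous ho
  exact H.contDiff_symm (f₀' := D) (fun z => (hs z).hasFDerivAt) h1

theorem thm_sphere : S_sphere := by
  intro F hF hc
  let e := Equiv.ofBijective F hF.2.1
  have hc' : CptS e.symm := by
    obtain ⟨R, hR⟩ := hc
    refine ⟨R, fun z hz => ?_⟩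
    rw [Equiv.symm_apply_eq]
    exact (hR z hz).symm
  refine ⟨⟨⟨ext F, ext e.symm, ext_ext e.left_inv, ext_ext e.right_inv⟩,
    ext_smooth hF.1 hc, ext_smooth (inv_smooth hF) hc'⟩, emb, emb_open.measurableEmbedding,
    fun z => ext_emb F z, fun p hp => ?_⟩
  have : p = -p0 := by
    by_contra h
    exact hp ⟨prj p, emb_prj h⟩
  rw [this]
  exact ext_pole F

end Pool.Agent.H191Z.Help
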